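import Pool.Agent.Y7.LN.Stm2

/-!
# Project LN, part 2 (helper7): asymptotics of the thresholds
-/

open Set Filter Topology MeasureTheory Metric

set_option autoImplicit false

namespace Pool.Agent.Y338.LN

open Pool.Agent.Y303.EJ (SeqE Num dl)
open Pool.Agent.Y7.LN (wd Slow)

variable {η : ℝ} {lm L C ℓ : ℕ → ℝ} {B : ℕ → ℕ → ℝ}

theorem dl_pow_four (η : ℝ) (n : ℕ) : dl η n ^ 4 = η ^ 4 / 256 ^ n := by
  unfold dl
  rw [div_pow, ← pow_mul, mul_comm n 4, pow_mul]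
  norm_num

theorem lm_lo (h : SeqE η lm L C ℓ B) (n : ℕ) : (256 : ℝ) ^ n ≤ lm n := by
  have h1 := h.lm_big n
  have h0 := h.η0
  have hη := h.η1
  rw [dl_pow_four] at h1
  have hp : (0 : ℝ) < 256 ^ n := by positivity
  have h2 : (10 : ℝ) ^ 30 * 256 ^ n ≤ η ^ 4 * lm n := by
    have h3 : η ^ 4 / 256 ^ n * lm n = (η ^ 4 * lm n) / 256 ^ n := by ring
    rw [h3, le_div_iff₀ hp] at h1
    exact h1
  have hη4 : 0 < η ^ 4 := by positivity
  have hη4' : η ^ 4 ≤ 1 := pow_le_one₀ h0.le (by linarith)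
  have h4 : 0 < lm n := by
    by_contra hcon
    have h5 : η ^ 4 * lm n ≤ 0 := mul_nonpos_of_nonneg_of_nonpos hη4.le (not_lt.mp hcon)
    have h6 : (0 : ℝ) < 10 ^ 30 * 256 ^ n := by positivity
    linarith
  have h5 : η ^ 4 * lm n ≤ 1 * lm n := mul_le_mul_of_nonneg_right hη4' h4.le
  have h6 : (256 : ℝ) ^ n ≤ 10 ^ 30 * 256 ^ n := by
    nlinarith
  linarith

theorem L_lo (h : SeqE η lm L C ℓ B) (n : ℕ) : (2 : ℝ) ^ (n * n) ≤ L n := by
  induction n with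
  | zero => simpa using h.L0
  | succ n ih =>
    have h1 := lm_lo h (n + 1)
    have h2 := h.lm_succ n
    rw [← h2]
    have h3 : (256 : ℝ) ^ (n + 1) = 2 ^ (8 * (n + 1)) := by
      rw [pow_mul]
      norm_num
    calc (2 : ℝ) ^ ((n + 1) * (n + 1)) ≤ 2 ^ (8 * (n + 1) + n * n) :=
          pow_le_pow_right₀ (by norm_num) (by nlinarith)
      _ = 256 ^ (n + 1) * 2 ^ (n * n) := by rw [pow_add, h3]
      _ ≤ lm (n + 1) * L n := mul_le_mul h1 ih (by positivity) (le_trans (by positivity) h1)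

/-- growth faster than every geometric sequence -/
theorem grow (h : SeqE η lm L C ℓ B) {K A ε : ℝ} (hA : 0 ≤ A) (hε : 0 < ε) :
    ∃ n₀, ∀ n ≥ n₀, K * A ^ n ≤ L n ^ ε := by
  have h2 : (1 : ℝ) < 2 ^ ε := Real.one_lt_rpow (by norm_num) hε
  obtain ⟨n₁, hn₁⟩ := pow_unbounded_of_one_lt (max K 1 * A) h2
  refine ⟨max n₁ 1, fun n hn => ?_⟩
  have hn1 : n₁ ≤ n := le_trans (le_max_left _ _) hn
  have hn2 : n ≠ 0 := by
    have : 1 ≤ n := le_trans (le_max_right _ _) hn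
    omega
  have hm1 : (1 : ℝ) ≤ max K 1 := le_max_right _ _
  have hm0 : (0 : ℝ) ≤ max K 1 := by linarith
  have h3 : max K 1 * A ≤ ((2 : ℝ) ^ ε) ^ n :=
    hn₁.le.trans (pow_le_pow_right₀ h2.le hn1)
  calc K * A ^ n ≤ max K 1 ^ n * A ^ n := by
        refine mul_le_mul_of_nonneg_right ?_ (by positivity)
        exact (le_max_left K 1).trans (le_self_pow₀ hm1 hn2)
    _ = (max K 1 * A) ^ n := (mul_pow _ _ _).symm
    _ ≤ (((2 : ℝ) ^ ε) ^ n) ^ n := pow_le_pow_left₀ (by positivity) h3 n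
    _ = ((2 : ℝ) ^ (n * n)) ^ ε := by
        rw [← pow_mul, Real.rpow_pow_comm (by norm_num)]
    _ ≤ L n ^ ε := Real.rpow_le_rpow (by positivity) (L_lo h n) hε.le

theorem t_THR : Pool.Agent.Y7.LN.S_THR := by
  intro η lm L C ℓ B h hN hS
  have hη0 := h.η0
  constructor
  · intro ε hε
    obtain ⟨n₀, hn₀⟩ := grow h (K := 4 / η) (A := 4) (by norm_num) hε
    refine ⟨n₀, fun n hn => ?_⟩
    have hL : 0 < L n := lt_of_lt_of_le one_pos (hN.L1 n)
    have h1 := hn₀ n hn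
    rw [Real.rpow_add hL, Real.rpow_neg_one]
    have h2 : 1 / (dl η (n + 1) * L n) = (L n)⁻¹ * (4 / η * 4 ^ n) := by
      unfold dl
      rw [pow_succ]
      field_simp
    rw [h2]
    exact mul_le_mul_of_nonneg_left h1 (inv_nonneg.mpr hL.le)
  · intro ε hε
    obtain ⟨n₀, hn₀⟩ := grow h (K := 2) (A := 1) (by norm_num) (half_pos hε)
    obtain ⟨n₁, hn₁⟩ := hS ε hε
    refine ⟨max n₀ (n₁ + 1), fun n hn => ?_⟩
    have hn1 : n₀ ≤ n := le_trans (le_max_left _ _) hn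
    have hn2 : n₁ + 1 ≤ n := le_trans (le_max_right _ _) hn
    obtain ⟨k, rfl⟩ : ∃ k, n = k + 1 := ⟨n - 1, by omega⟩
    have hL : 0 < L (k + 1) := lt_of_lt_of_le one_pos (hN.L1 _)
    have hLk : 0 < L k := lt_of_lt_of_le one_pos (hN.L1 _)
    have h1 := hn₀ _ hn1
    rw [one_pow, mul_one] at h1
    have h2 := hn₁ k (by omega)
    have h3 : lm (k + 1) ≤ L k ^ ε := by
      rw [← h.lm_succ k, Real.rpow_add hLk, Real.rpow_one, mul_comm (L k)] at h2
      exact le_of_mul_le_mul_right h2 hLk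
    have h4 : L k ^ ε ≤ L (k + 1) ^ ε :=
      Real.rpow_le_rpow hLk.le (hN.Lmono (Nat.le_succ k)) hε.le
    have h5 : √(lm (k + 1)) ≤ L (k + 1) ^ (ε / 2) := by
      rw [Real.sqrt_le_left (by positivity), ← Real.rpow_natCast, ← Real.rpow_mul hL.le]
      have : ε / 2 * ((2 : ℕ) : ℝ) = ε := by push_cast; ring
      rw [this]
      exact h3.trans h4
    have h6 : 0 ≤ L (k + 1) ^ (ε / 2) := by positivity
    have h7 : L (k + 1) ^ ε = L (k + 1) ^ (ε / 2) * L (k + 1) ^ (ε / 2) := by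
      rw [← Real.rpow_add hL]
      congr 1
      ring
    rw [Real.rpow_add hL, Real.rpow_neg_one]
    have h8 : 2 * wd lm L (k + 1) = (L (k + 1))⁻¹ * (2 * √(lm (k + 1))) := by
      unfold wd
      ring
    rw [h8]
    refine mul_le_mul_of_nonneg_left ?_ (inv_nonneg.mpr hL.le)
    rw [h7]
    exact mul_le_mul h1 h5 (Real.sqrt_nonneg _) h6

end Pool.Agent.Y338.LN
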